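import Pool.Agent.H300R2.FB.Defs
import Pool.Agent.H442R2.EHI.Dio

/-!
F2 of phase 2 of helper300: inverse theorem for pairs (helper993).
-/

namespace Pool.Agent.H993R2.FB

open Finset Polynomial
open Pool.Agent.H469R2.NK (e)
open Pool.Agent.H442R2.EHI
open Pool.Agent.H300R2.BH
open Pool.Agent.H300R2.FB

lemma nint_le_sub (x : ℝ) (z : ℤ) : nint x ≤ |x - z| := round_le x z

lemma nint_le_abs (x : ℝ) : nint x ≤ |x| := by
  have := nint_le_sub x 0
  simpa using this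

lemma nint_add (x y : ℝ) : nint (x + y) ≤ nint x + nint y := by
  refine (nint_le_sub (x + y) (round x + round y)).trans ?_
  push_cast
  have : x + y - ((round x : ℝ) + (round y : ℝ)) = (x - round x) + (y - round y) := by ring
  rw [this]
  exact abs_add_le _ _

lemma nint_natmul (k : ℕ) (x : ℝ) : nint (k * x) ≤ k * nint x := by
  refine (nint_le_sub (k * x) (k * round x)).trans ?_
  push_cast
  have : (k : ℝ) * x - (k : ℝ) * (round x : ℝ) = k * (x - round x) := by ring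
  rw [this, abs_mul, Nat.abs_cast]
  exact le_rfl

lemma nint_add_int (x : ℝ) (z : ℤ) : nint (x + z) = nint x := by
  unfold nint
  rw [round_add_intCast]
  push_cast
  congr 1
  ring

lemma nint_eq_abs {x : ℝ} (h : |x| < 1 / 2) : nint x = |x| := by
  have h1 : round x = 0 := by
    rw [round_eq_zero_iff]
    rw [abs_lt] at h
    exact ⟨by linarith [h.1], h.2⟩
  unfold nint
  rw [h1]
  simp

lemma dvd_of_nint {n : ℤ} {q : ℕ} (hq : 1 ≤ q) (h : nint ((n : ℝ) / q) < 1 / q) :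
    (q : ℤ) ∣ n := by
  have hq0 : (0 : ℝ) < q := by exact_mod_cast hq
  unfold nint at h
  set m := round ((n : ℝ) / q) with hm
  have h1 : |(n : ℝ) - q * m| < 1 := by
    have h2 : (n : ℝ) - q * m = q * ((n : ℝ) / q - m) := by
      rw [mul_sub, mul_div_cancel₀ _ hq0.ne']
    rw [h2, abs_mul, abs_of_pos hq0]
    rw [lt_div_iff₀ hq0] at h
    linarith
  have h2 : |n - q * m| < 1 := by exact_mod_cast h1
  have h3 : n - q * m = 0 := Int.abs_lt_one_iff.1 h2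
  exact ⟨m, by linarith⟩

open Classical in
lemma pigeon_right (K K1 : ℕ) (p : ℕ × ℕ → Prop) (c : ℝ) (hc : 0 ≤ c)
    (h : (K : ℝ) * c < (((Ioc K1 K ×ˢ Ioc K1 K).filter p).card : ℝ)) :
    ∃ k' ∈ Ioc K1 K, c < (((Ioc K1 K).filter (fun k => p (k, k'))).card : ℝ) := by
  by_contra hcon
  push Not at hcon
  have h1 : (((Ioc K1 K ×ˢ Ioc K1 K).filter p).card : ℝ) =
      ∑ k' ∈ Ioc K1 K, (((Ioc K1 K).filter (fun k => p (k, k'))).card : ℝ) := by
    rw [Finset.card_filter, Finset.sum_product_right]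
    push_cast
    refine Finset.sum_congr rfl fun k' _ => ?_
    rw [Finset.card_filter]
    push_cast
    rfl
  have h2 : ∑ k' ∈ Ioc K1 K, (((Ioc K1 K).filter (fun k => p (k, k'))).card : ℝ) ≤
      ∑ _k' ∈ Ioc K1 K, c := Finset.sum_le_sum fun k' hk' => hcon k' hk'
  rw [Finset.sum_const, nsmul_eq_mul, Nat.card_Ioc] at h2
  have h3 : ((K - K1 : ℕ) : ℝ) ≤ K := by exact_mod_cast Nat.sub_le _ _
  have h4 := mul_le_mul_of_nonneg_right h3 hc
  linarith

open Classical in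
lemma pigeon_left (K K1 : ℕ) (p : ℕ × ℕ → Prop) (c : ℝ) (hc : 0 ≤ c)
    (h : (K : ℝ) * c < (((Ioc K1 K ×ˢ Ioc K1 K).filter p).card : ℝ)) :
    ∃ k ∈ Ioc K1 K, c < (((Ioc K1 K).filter (fun k' => p (k, k'))).card : ℝ) := by
  by_contra hcon
  push Not at hcon
  have h1 : (((Ioc K1 K ×ˢ Ioc K1 K).filter p).card : ℝ) =
      ∑ k ∈ Ioc K1 K, (((Ioc K1 K).filter (fun k' => p (k, k'))).card : ℝ) := by
    rw [Finset.card_filter, Finset.sum_product]
    push_cast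
    refine Finset.sum_congr rfl fun k' _ => ?_
    rw [Finset.card_filter]
    push_cast
    rfl
  have h2 : ∑ k ∈ Ioc K1 K, (((Ioc K1 K).filter (fun k' => p (k, k'))).card : ℝ) ≤
      ∑ _k ∈ Ioc K1 K, c := Finset.sum_le_sum fun k' hk' => hcon k' hk'
  rw [Finset.sum_const, nsmul_eq_mul, Nat.card_Ioc] at h2
  have h3 : ((K - K1 : ℕ) : ℝ) ≤ K := by exact_mod_cast Nat.sub_le _ _
  have h4 := mul_le_mul_of_nonneg_right h3 hc
  linarith

lemma dio_use (K Q : ℕ) (L : ℝ) (U : ℕ) (hL : 1 ≤ L) (hQ : 1 ≤ Q) (hQK : Q ≤ K)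
    (hQ1 : 100 * L ^ U < Q) (Δ : ℝ) (hΔ0 : 0 < Δ) (hΔ : Δ * Q ≤ 1 / 8) (x : ℝ)
    (S : Finset ℕ) (hS : (K : ℝ) / L ^ U < S.card) (g : ℕ → ℤ)
    (hg : Set.InjOn g (S : Set ℕ)) (hg1 : ∀ k ∈ S, -(K : ℤ) ≤ g k ∧ g k ≤ K)
    (hg2 : ∀ k ∈ S, nint (g k * x) ≤ Δ) :
    ∃ q : ℕ, 1 ≤ q ∧ q ≤ Q ∧ ∃ b : ℤ, |x - (b : ℝ) / (q : ℝ)| ≤ Δ * Q / K := by
  by_contra hcon
  push Not at hcon
  have h1 := dioph K Q hQ hQK Δ hΔ0 hΔ x
    (fun q hq b => hcon q (mem_Icc.1 hq).1 (mem_Icc.1 hq).2 b)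
  have h2 : S.card ≤ nu K Δ x := by
    unfold nu
    refine Finset.card_le_card_of_injOn g ?_ hg
    intro k hk
    have hk' : k ∈ S := hk
    rw [Finset.mem_coe, Finset.mem_filter, Finset.mem_Icc]
    exact ⟨hg1 k hk', hg2 k hk'⟩
  have hK0 : (0 : ℝ) < K := by
    have : 1 ≤ K := hQ.trans hQK
    exact_mod_cast this
  have hQ0 : (0 : ℝ) < Q := by exact_mod_cast hQ
  have hLU : (0 : ℝ) < L ^ U := by positivity
  have h3 : 100 * (K : ℝ) / Q < K / L ^ U := by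
    rw [div_lt_div_iff₀ hQ0 hLU]
    nlinarith
  have h4 : (S.card : ℝ) ≤ nu K Δ x := by exact_mod_cast h2
  linarith

/-- the normalised condition on a pair -/
def PP (j : ℕ) (A : ℝ) (B0 : ℝ) (μ : ℝ) (k k' : ℕ) (μ' : ℝ) : Prop :=
  |μ - μ'| ≤ 1 / (2 * A) ∧ (∀ l < j, nint (μ * (k : ℝ) ^ l - μ' * (k' : ℝ) ^ l) ≤ 1 / (2 * A)) ∧
    ∀ l ≤ j, nint (μ * (k : ℝ) ^ l - μ' * (k' : ℝ) ^ l) ≤ B0

/-- reduction of a pair to the normalised condition -/
lemma reduce (j : ℕ) (hj : 1 ≤ j) (A B0 α β μ : ℝ) (q : ℕ) (b : ℤ) (hq : 1 ≤ q)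
    (hcop : IsCoprime (q : ℤ) b) (hμ : μ = α - (b : ℝ) / q) (hA : 0 < A) (K : ℕ) (k k' : ℕ)
    (hk : k ≤ K) (hk' : k' ≤ K)
    (h1 : ∀ l < j, nint (α * (k : ℝ) ^ l - β * (k' : ℝ) ^ l) ≤ 1 / (2 * A))
    (h2 : ∀ l ≤ j, nint (α * (k : ℝ) ^ l - β * (k' : ℝ) ^ l) ≤ B0)
    (hsmall : B0 + K * (2 * |μ| + 1 / (2 * A)) < 1 / q) :
    ∃ μ' : ℝ, PP j A B0 μ k k' μ' := by
  have hq0 : (0 : ℝ) < q := by exact_mod_cast hq
  set z : ℤ := round (α - β) with hz
  -- β + z is close to α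
  set μ' : ℝ := μ - (α - β - z) with hμ'
  have hd : |μ - μ'| ≤ 1 / (2 * A) := by
    have h3 := h1 0 (by omega)
    rw [pow_zero, pow_zero, mul_one, mul_one] at h3
    have h4 : μ - μ' = α - β - z := by rw [hμ']; ring
    rw [h4]
    exact h3
  have hβ : β = (b : ℝ) / q + μ' - z := by
    rw [hμ', hμ]; ring
  have hα : α = (b : ℝ) / q + μ := by rw [hμ]; ring
  have hkR : (k : ℝ) ≤ K := by exact_mod_cast hk
  have hkR' : (k' : ℝ) ≤ K := by exact_mod_cast hk'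
  have hk0 : (0 : ℝ) ≤ k := by positivity
  have hk0' : (0 : ℝ) ≤ k' := by positivity
  have hdvd : (q : ℤ) ∣ (k : ℤ) - k' := by
    have h3 := h2 1 hj
    rw [pow_one, pow_one] at h3
    have h4 : ((b * ((k : ℤ) - k') : ℤ) : ℝ) / q =
        (α * k - β * k') + (-(μ * k - μ' * k') + ((-(z * k') : ℤ) : ℝ)) := by
      rw [hα, hβ]
      push_cast
      field_simp
      ring
    have h5 : nint (((b * ((k : ℤ) - k') : ℤ) : ℝ) / q) ≤
        B0 + K * (2 * |μ| + 1 / (2 * A)) := by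
      rw [h4]
      refine (nint_add _ _).trans (add_le_add h3 ?_)
      rw [nint_add_int]
      refine (nint_le_abs _).trans ?_
      rw [abs_neg]
      have h6 : |μ'| ≤ |μ| + 1 / (2 * A) := by
        have h7 : μ' = μ - (μ - μ') := by ring
        rw [h7]
        exact (abs_sub _ _).trans (by linarith)
      calc |μ * k - μ' * k'| ≤ |μ * k| + |μ' * k'| := abs_sub _ _
        _ = |μ| * k + |μ'| * k' := by
          rw [abs_mul, abs_mul, Nat.abs_cast, Nat.abs_cast]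
        _ ≤ |μ| * K + (|μ| + 1 / (2 * A)) * K := by
          refine add_le_add (mul_le_mul_of_nonneg_left hkR (abs_nonneg _)) ?_
          exact mul_le_mul h6 hkR' hk0' (by positivity)
        _ = K * (2 * |μ| + 1 / (2 * A)) := by ring
    have h8 := dvd_of_nint hq (lt_of_le_of_lt h5 hsmall)
    exact hcop.dvd_of_dvd_mul_left h8
  have hpow : ∀ l : ℕ, nint (μ * (k : ℝ) ^ l - μ' * (k' : ℝ) ^ l) =
      nint (α * (k : ℝ) ^ l - β * (k' : ℝ) ^ l) := by
    intro l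
    obtain ⟨w, hw⟩ : (q : ℤ) ∣ (k : ℤ) ^ l - (k' : ℤ) ^ l :=
      hdvd.trans (sub_dvd_pow_sub_pow _ _ _)
    have hwR : (k : ℝ) ^ l - (k' : ℝ) ^ l = q * w := by exact_mod_cast hw
    have h9 : α * (k : ℝ) ^ l - β * (k' : ℝ) ^ l =
        (μ * (k : ℝ) ^ l - μ' * (k' : ℝ) ^ l) + ((b * w + z * (k' : ℤ) ^ l : ℤ) : ℝ) := by
      have h10 : (b : ℝ) / q * ((k : ℝ) ^ l - (k' : ℝ) ^ l) = b * w := by
        rw [hwR]; field_simp
      push_cast
      rw [hα, hβ]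
      linear_combination h10
    rw [h9, nint_add_int]
  refine ⟨μ', hd, ?_, ?_⟩
  · intro l hl
    rw [hpow]
    exact h1 l hl
  · intro l hl
    rw [hpow]
    exact h2 l hl

open Classical in
/-- F2. Inverse theorem. -/
theorem inv_full (j : ℕ) (hj : 1 ≤ j) (U E2 E6 : ℕ) : ∃ (E : ℕ) (L0 : ℝ), ∀ L : ℝ, L0 ≤ L →
    ∀ K K1 A D : ℕ, L ^ E ≤ K → K1 ≤ K → (K : ℝ) ≤ K1 * L ^ E2 → (K : ℝ) * L ^ E ≤ A →
    (A : ℝ) ≤ D * L ^ E6 → ∀ α : ℝ,
    (K : ℝ) ^ 2 / L ^ U < (((Ioc K1 K ×ˢ Ioc K1 K).filter (fun kk : ℕ × ℕ =>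
      ∃ β : ℝ, (∀ l < j, nint (α * (kk.1 : ℝ) ^ l - β * (kk.2 : ℝ) ^ l) ≤ 1 / (2 * (A : ℝ))) ∧
        nint (α * (kk.1 : ℝ) ^ j - β * (kk.2 : ℝ) ^ j) ≤ 1 / (2 * (D : ℝ)))).card : ℝ) →
    ∃ q : ℕ, 1 ≤ q ∧ (q : ℝ) ≤ L ^ E ∧ ∃ b : ℤ,
      |α - (b : ℝ) / (q : ℝ)| ≤ L ^ E / ((A : ℝ) * (K : ℝ) ^ (j - 1)) := by
  obtain ⟨C, hC⟩ : ∃ C : ℕ, C = E6 + U + 1 + E2 * j := ⟨_, rfl⟩
  refine ⟨C + U + 3, 102, ?_⟩
  intro L hL K K1 A D hK hK1 hKK hA hAD α hP
  obtain ⟨E, hE⟩ : ∃ E : ℕ, E = C + U + 3 := ⟨_, rfl⟩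
  rw [← hE] at hK hA ⊢
  have hL1 : (1 : ℝ) ≤ L := by linarith
  have hL0 : (0 : ℝ) < L := by linarith
  -- Q
  obtain ⟨Q, hQdef⟩ : ∃ Q : ℕ, Q = ⌈101 * L ^ U⌉₊ := ⟨_, rfl⟩
  have hLU : (1 : ℝ) ≤ L ^ U := one_le_pow₀ hL1
  have hQ1 : 101 * L ^ U ≤ Q := by rw [hQdef]; exact Nat.le_ceil _
  have hQ2 : (Q : ℝ) ≤ L ^ (U + 1) := by
    have h1 : (Q : ℝ) ≤ 101 * L ^ U + 1 := by
      rw [hQdef]
      exact (Nat.ceil_lt_add_one (by positivity : 0 ≤ 101 * L ^ U)).le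
    have h2 : 102 * L ^ U ≤ L * L ^ U := mul_le_mul_of_nonneg_right hL (by positivity)
    rw [pow_succ, mul_comm]
    linarith
  have hQR : (1 : ℝ) ≤ Q := by linarith
  have hQ0 : (0 : ℝ) < Q := by linarith
  have hQn : 1 ≤ Q := by exact_mod_cast hQR
  have hE1 : (1 : ℝ) ≤ L ^ E := one_le_pow₀ hL1
  have hKR : (1 : ℝ) ≤ K := hE1.trans hK
  have hK0 : (0 : ℝ) < K := by linarith
  have hQK : Q ≤ K := by
    have h1 : (Q : ℝ) ≤ K := by
      refine hQ2.trans (le_trans ?_ hK)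
      exact pow_le_pow_right₀ hL1 (by omega)
    exact_mod_cast h1
  have hA0 : (0 : ℝ) < A := by
    refine lt_of_lt_of_le ?_ hA
    positivity
  have hD0 : (0 : ℝ) < D := by
    by_contra h
    have h1 : (D : ℝ) = 0 := le_antisymm (not_lt.1 h) (by positivity)
    rw [h1, zero_mul] at hAD
    linarith
  -- X, T, Y
  obtain ⟨X, hX⟩ : ∃ X : ℝ, X = L ^ C := ⟨_, rfl⟩
  obtain ⟨T, hT⟩ : ∃ T : ℝ, T = L ^ (U + 1) := ⟨_, rfl⟩
  obtain ⟨Y, hY⟩ : ∃ Y : ℝ, Y = L ^ (E6 + U + 1) := ⟨_, rfl⟩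
  rw [← hT] at hQ2
  have hT1 : 1 ≤ T := by rw [hT]; exact one_le_pow₀ hL1
  have hY1 : 1 ≤ Y := by rw [hY]; exact one_le_pow₀ hL1
  have hYX : Y ≤ X := by rw [hX, hY]; exact pow_le_pow_right₀ hL1 (by omega)
  have hX1 : 1 ≤ X := hY1.trans hYX
  have hXE : X * T * L ^ 2 = L ^ E := by
    rw [hX, hT, hE, ← pow_add, ← pow_add]; congr 1
  have hYT : L ^ E6 * T = Y := by
    rw [hT, hY, ← pow_add]; congr 1
  have h100 : K / A * (X * T) ≤ 1 / 100 := by
    rw [div_mul_eq_mul_div, div_le_div_iff₀ hA0 (by norm_num)]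
    rw [← hXE] at hA
    have h1 : (100 : ℝ) ≤ L ^ 2 := by
      calc (100 : ℝ) ≤ 10 ^ 2 := by norm_num
        _ ≤ L ^ 2 := pow_le_pow_left₀ (by norm_num) (by linarith) 2
    have h2 : 0 ≤ (K : ℝ) * (X * T) := by positivity
    have h3 : (K : ℝ) * (X * T) * 100 ≤ (K : ℝ) * (X * T) * L ^ 2 :=
      mul_le_mul_of_nonneg_left h1 h2
    have h4 : (K : ℝ) * (X * T * L ^ 2) = (K : ℝ) * (X * T) * L ^ 2 := by ring
    linarith
  -- consequences
  have hXA : K / A * X ≤ 1 / (100 * T) := by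
    rw [le_div_iff₀ (by positivity)]
    have : K / A * X * (100 * T) = 100 * (K / A * (X * T)) := by ring
    rw [this]
    linarith
  have hT2 : 1 / (100 * T) ≤ 1 / (100 * Q) := by
    exact one_div_le_one_div_of_le (by positivity) (by linarith)
  have hXA2 : K / A * X ≤ 1 / (100 * Q) := hXA.trans hT2
  have hXA3 : K / A * X ≤ 1 / 100 := by
    refine hXA.trans ?_
    exact one_div_le_one_div_of_le (by norm_num) (by linarith)
  have hKA : 1 / (A : ℝ) ≤ (K : ℝ) / A := div_le_div_of_nonneg_right hKR hA0.le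
  have hKA0 : 0 < (K : ℝ) / A := by positivity
  have hKAX : (K : ℝ) / A ≤ K / A * X := le_mul_of_one_le_right hKA0.le hX1
  obtain ⟨D1, hD1⟩ : ∃ D1 : ℝ, D1 = L ^ E6 * (K / A) := ⟨_, rfl⟩
  obtain ⟨B0, hB0⟩ : ∃ B0 : ℝ, B0 = L ^ E6 / (2 * A) := ⟨_, rfl⟩
  have hE61 : (1 : ℝ) ≤ L ^ E6 := one_le_pow₀ hL1
  have hD10 : 0 < D1 := by rw [hD1]; positivity
  have hE6X : L ^ E6 ≤ X := by
    rw [hX]; exact pow_le_pow_right₀ hL1 (by omega)
  have hB0A : 1 / (2 * (A : ℝ)) ≤ B0 := by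
    rw [hB0]; exact div_le_div_of_nonneg_right hE61 (by positivity)
  have hB0D : 1 / (2 * (D : ℝ)) ≤ B0 := by
    rw [hB0, div_le_div_iff₀ (by positivity) (by positivity)]
    linarith
  have hB01 : B0 + K / (2 * A) ≤ D1 := by
    rw [hB0, hD1]
    have h1 : L ^ E6 / (2 * A) ≤ L ^ E6 * (K / A) / 2 := by
      rw [← mul_div_assoc, div_div, mul_comm (A : ℝ) 2]
      refine div_le_div_of_nonneg_right ?_ (by positivity)
      exact le_mul_of_one_le_right (by positivity) hKR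
    have h2 : K / (2 * A) ≤ L ^ E6 * (K / A) / 2 := by
      have h3 : K / A ≤ L ^ E6 * (K / A) := le_mul_of_one_le_left hKA0.le hE61
      have h4 : K / (2 * A) = (K / A : ℝ) / 2 := by rw [div_div, mul_comm]
      linarith
    linarith
  have hB0X : B0 ≤ K / A * X / 2 := by
    rw [hB0]
    have h1 : L ^ E6 / (2 * A) = (1 / A) * L ^ E6 / 2 := by field_simp
    rw [h1]
    have h2 : (1 / A) * L ^ E6 ≤ K / A * X :=
      mul_le_mul hKA hE6X (by positivity) hKA0.le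
    linarith
  have hD1Q : D1 * Q ≤ 1 / 8 := by
    have h1 : D1 * Q ≤ D1 * T := mul_le_mul_of_nonneg_left hQ2 hD10.le
    have h2 : D1 * T = K / A * Y := by rw [hD1, ← hYT]; ring
    have h3 : K / A * Y ≤ K / A * X := mul_le_mul_of_nonneg_left hYX hKA0.le
    linarith
  have hDQK : D1 * Q / K ≤ Y / A := by
    have h1 : D1 * Q ≤ D1 * T := mul_le_mul_of_nonneg_left hQ2 hD10.le
    have h2 : D1 * T = K / A * Y := by rw [hD1, ← hYT]; ring
    rw [div_le_iff₀ hK0]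
    have h3 : Y / A * K = K / A * Y := by ring
    linarith
  -- the pairs
  obtain ⟨P, hPdef⟩ : ∃ P : ℕ × ℕ → Prop, P = (fun kk : ℕ × ℕ =>
      ∃ β : ℝ, (∀ l < j, nint (α * (kk.1 : ℝ) ^ l - β * (kk.2 : ℝ) ^ l) ≤ 1 / (2 * (A : ℝ))) ∧
        nint (α * (kk.1 : ℝ) ^ j - β * (kk.2 : ℝ) ^ j) ≤ 1 / (2 * (D : ℝ))) := ⟨_, rfl⟩
  have hcount : (K : ℝ) * (K / L ^ U) < (((Ioc K1 K ×ˢ Ioc K1 K).filter P).card : ℝ) := by
    have h1 : (K : ℝ) * (K / L ^ U) = (K : ℝ) ^ 2 / L ^ U := by ring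
    rw [h1]
    subst hPdef
    exact hP
  clear hP
  have hPall : ∀ k k' : ℕ, P (k, k') → ∃ β : ℝ,
      (∀ l < j, nint (α * (k : ℝ) ^ l - β * (k' : ℝ) ^ l) ≤ 1 / (2 * (A : ℝ))) ∧
      ∀ l ≤ j, nint (α * (k : ℝ) ^ l - β * (k' : ℝ) ^ l) ≤ B0 := by
    intro k k' h
    rw [hPdef] at h
    obtain ⟨β, h1, h2⟩ := h
    refine ⟨β, h1, ?_⟩
    intro l hl
    rcases lt_or_eq_of_le hl with hl | hl
    · exact (h1 l hl).trans hB0A
    · rw [hl]
      exact h2.trans hB0D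
  -- STEP 1
  obtain ⟨q0, hq01, hq0Q, b0, hb0⟩ : ∃ q : ℕ, 1 ≤ q ∧ q ≤ Q ∧ ∃ b : ℤ,
      |α - (b : ℝ) / (q : ℝ)| ≤ D1 * Q / K := by
    obtain ⟨k', hk', hc⟩ := pigeon_right K K1 P (K / L ^ U) (by positivity) hcount
    rw [mem_Ioc] at hk'
    refine dio_use K Q L U hL1 hQn hQK (by linarith) D1 hD10 hD1Q α _ hc
      (fun k => (k : ℤ) - k') ?_ ?_ ?_
    · intro x _ y _ hxy
      simp only at hxy
      omega
    · intro k hk
      rw [mem_filter, mem_Ioc] at hk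
      constructor <;> omega
    · intro k hk
      rw [mem_filter, mem_Ioc] at hk
      obtain ⟨β, h1, h2⟩ := hPall k k' hk.2
      have h3 := h2 1 hj
      have h4 := h1 0 (by omega)
      rw [pow_one, pow_one] at h3
      rw [pow_zero, pow_zero, mul_one, mul_one] at h4
      have h5 : (((k : ℤ) - k' : ℤ) : ℝ) * α =
          (α * k - β * k') + ((-(round (α - β) * k') : ℤ) : ℝ) +
            (-((k' : ℝ) * (α - β - round (α - β)))) := by
        push_cast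
        ring
      have h6 : nint (-((k' : ℝ) * (α - β - round (α - β)))) ≤ K / (2 * A) := by
        refine (nint_le_abs _).trans ?_
        rw [abs_neg, abs_mul, Nat.abs_cast]
        have h7 : (k' : ℝ) ≤ K := by exact_mod_cast hk'.2
        calc (k' : ℝ) * |α - β - round (α - β)| ≤ K * (1 / (2 * A)) :=
              mul_le_mul h7 h4 (abs_nonneg _) hK0.le
          _ = K / (2 * A) := by ring
      rw [h5]
      refine (nint_add _ _).trans ?_
      rw [nint_add_int]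
      refine (add_le_add h3 h6).trans hB01
  -- lowest terms
  obtain ⟨q, b, hq1, hqQ, hcop, hqb⟩ : ∃ (q : ℕ) (b : ℤ), 1 ≤ q ∧ q ≤ Q ∧
      IsCoprime (q : ℤ) b ∧ (b : ℝ) / q = (b0 : ℝ) / q0 := by
    set r : ℚ := (b0 : ℚ) / (q0 : ℚ) with hr
    refine ⟨r.den, r.num, r.den_pos, ?_, ?_, ?_⟩
    · refine le_trans ?_ hq0Q
      have h1 : (r.den : ℤ) ∣ (q0 : ℤ) := by
        have h2 := Rat.den_dvd b0 (q0 : ℤ)
        have h3 : (Rat.divInt b0 (q0 : ℤ)) = r := by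
          rw [hr, Rat.divInt_eq_div]
          push_cast
          rfl
        rwa [h3] at h2
      exact Nat.le_of_dvd (by omega) (by exact_mod_cast h1)
    · have h1 := r.reduced
      have h2 : IsCoprime (r.num) (r.den : ℤ) := Int.isCoprime_iff_gcd_eq_one.2 (by
        rw [Int.gcd, Int.natAbs_natCast]; exact h1)
      exact h2.symm
    · have h1 : (r : ℝ) = (b0 : ℝ) / q0 := by rw [hr]; push_cast; rfl
      have h2 : (r : ℝ) = (r.num : ℝ) / r.den := by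
        exact_mod_cast (Rat.num_div_den r).symm
      rw [← h2, h1]
  have hqR0 : (0 : ℝ) < q := by exact_mod_cast hq1
  obtain ⟨μ, hμ⟩ : ∃ μ : ℝ, μ = α - (b : ℝ) / q := ⟨_, rfl⟩
  have hμY : |μ| ≤ Y / A := by
    rw [hμ, hqb]
    exact hb0.trans hDQK
  have hμX : |μ| ≤ X / A := hμY.trans (div_le_div_of_nonneg_right hYX hA0.le)
  have hqQR : (q : ℝ) ≤ Q := by exact_mod_cast hqQ
  have hsmall : B0 + K * (2 * |μ| + 1 / (2 * A)) < 1 / q := by
    have h1 : K * |μ| ≤ K / A * X := by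
      calc K * |μ| ≤ K * (X / A) := mul_le_mul_of_nonneg_left hμX hK0.le
        _ = K / A * X := by ring
    have h2 : (K : ℝ) * (1 / (2 * (A : ℝ))) = (K : ℝ) / A / 2 := by field_simp
    have h3 : B0 + K * (2 * |μ| + 1 / (2 * A)) ≤ 3 * (K / A * X) := by
      have h4 : K * (2 * |μ| + 1 / (2 * A)) = 2 * (K * |μ|) + K * (1 / (2 * A)) := by ring
      rw [h4, h2]
      linarith
    have h5 : 3 * (1 / (100 * (Q : ℝ))) < 1 / Q := by
      rw [mul_one_div, div_lt_div_iff₀ (by positivity) hQ0]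
      linarith
    have h6 : 1 / (Q : ℝ) ≤ 1 / q := one_div_le_one_div_of_le hqR0 hqQR
    linarith
  have hPP : ∀ k k' : ℕ, k ≤ K → k' ≤ K → P (k, k') → ∃ μ' : ℝ, PP j A B0 μ k k' μ' := by
    intro k k' hk hk' h
    obtain ⟨β, h1, h2⟩ := hPall k k' h
    exact reduce j hj A B0 α β μ q b hq1 hcop hμ hA0 K k k' hk hk' h1 h2 hsmall
  -- STEP 3
  have hclaim : ∀ n : ℕ, n + 1 ≤ j → |μ| * (K : ℝ) ^ n ≤ X / A ∧
      ∀ (k k' : ℕ), k ≤ K → k' ≤ K → ∀ μ' : ℝ, PP j A B0 μ k k' μ' →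
        |μ * (k : ℝ) ^ n - μ' * (k' : ℝ) ^ n| ≤ 1 / (2 * A) := by
    intro n
    induction n with
    | zero =>
      intro _
      refine ⟨by rw [pow_zero, mul_one]; exact hμX, ?_⟩
      intro k k' _ _ μ' h
      rw [pow_zero, pow_zero, mul_one, mul_one]
      exact h.1
    | succ n ih =>
      intro hn
      obtain ⟨ih1, ih2⟩ := ih (by omega)
      -- second half
      have hsec : ∀ (k k' : ℕ), k ≤ K → k' ≤ K → ∀ μ' : ℝ, PP j A B0 μ k k' μ' →
          |μ * (k : ℝ) ^ (n + 1) - μ' * (k' : ℝ) ^ (n + 1)| ≤ 1 / (2 * A) := by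
        intro k k' hk hk' μ' h
        have hkR : (k : ℝ) ≤ K := by exact_mod_cast hk
        have hkR' : (k' : ℝ) ≤ K := by exact_mod_cast hk'
        have h1 := ih2 k k' hk hk' μ' h
        have h2 : |μ * (k : ℝ) ^ n| ≤ X / A := by
          rw [abs_mul, abs_of_nonneg (by positivity : (0 : ℝ) ≤ (k : ℝ) ^ n)]
          refine le_trans ?_ ih1
          exact mul_le_mul_of_nonneg_left (pow_le_pow_left₀ (by positivity) hkR n)
            (abs_nonneg _)
        have h3 : |μ' * (k' : ℝ) ^ n| ≤ X / A + 1 / (2 * A) := by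
          have h4 : μ' * (k' : ℝ) ^ n = μ * (k : ℝ) ^ n -
              (μ * (k : ℝ) ^ n - μ' * (k' : ℝ) ^ n) := by ring
          rw [h4]
          exact (abs_sub _ _).trans (add_le_add h2 h1)
        have h5 : |μ * (k : ℝ) ^ (n + 1) - μ' * (k' : ℝ) ^ (n + 1)| ≤
            3 * (K / A * X) := by
          have h6 : μ * (k : ℝ) ^ (n + 1) - μ' * (k' : ℝ) ^ (n + 1) =
              (μ * (k : ℝ) ^ n) * k - (μ' * (k' : ℝ) ^ n) * k' := by ring
          rw [h6]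
          calc |(μ * (k : ℝ) ^ n) * k - (μ' * (k' : ℝ) ^ n) * k'|
              ≤ |(μ * (k : ℝ) ^ n) * k| + |(μ' * (k' : ℝ) ^ n) * k'| := abs_sub _ _
            _ = |μ * (k : ℝ) ^ n| * k + |μ' * (k' : ℝ) ^ n| * k' := by
              rw [abs_mul _ (k : ℝ), abs_mul _ (k' : ℝ), Nat.abs_cast, Nat.abs_cast]
            _ ≤ X / A * K + (X / A + 1 / (2 * A)) * K := by
              refine add_le_add (mul_le_mul h2 hkR (by positivity) (by positivity)) ?_
              exact mul_le_mul h3 hkR' (by positivity) (by positivity)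
            _ = 2 * (K / A * X) + K / A / 2 := by field_simp; ring
            _ ≤ 3 * (K / A * X) := by linarith
        have h7 : |μ * (k : ℝ) ^ (n + 1) - μ' * (k' : ℝ) ^ (n + 1)| < 1 / 2 := by
          linarith
        rw [← nint_eq_abs h7]
        exact h.2.1 (n + 1) (by omega)
      refine ⟨?_, hsec⟩
      -- first half
      obtain ⟨k, hk, hc⟩ := pigeon_left K K1 P (K / L ^ U) (by positivity) hcount
      rw [mem_Ioc] at hk
      have hkR : (k : ℝ) ≤ K := by exact_mod_cast hk.2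
      obtain ⟨q', hq'1, hq'Q, b', hb'⟩ := dio_use K Q L U hL1 hQn hQK (by linarith) D1 hD10 hD1Q
        (μ * (k : ℝ) ^ (n + 1)) _ hc (fun k' => (k : ℤ) - k') (by
          intro x _ y _ hxy
          simp only at hxy
          omega) (by
          intro k' hk'
          rw [mem_filter, mem_Ioc] at hk'
          constructor <;> omega) (by
          intro k' hk'
          rw [mem_filter, mem_Ioc] at hk'
          obtain ⟨μ', hpp⟩ := hPP k k' hk.2 hk'.1.2 hk'.2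
          have h1 := hsec k k' hk.2 hk'.1.2 μ' hpp
          have h2 := hpp.2.2 (n + 2) (by omega)
          have h3 : (((k : ℤ) - k' : ℤ) : ℝ) * (μ * (k : ℝ) ^ (n + 1)) =
              (μ * (k : ℝ) ^ (n + 2) - μ' * (k' : ℝ) ^ (n + 2)) +
                (-((k' : ℝ) * (μ * (k : ℝ) ^ (n + 1) - μ' * (k' : ℝ) ^ (n + 1)))) := by
            push_cast
            ring
          rw [h3]
          refine (nint_add _ _).trans ?_
          have h4 : nint (-((k' : ℝ) * (μ * (k : ℝ) ^ (n + 1) - μ' * (k' : ℝ) ^ (n + 1)))) ≤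
              K / (2 * A) := by
            refine (nint_le_abs _).trans ?_
            rw [abs_neg, abs_mul, Nat.abs_cast]
            have h7 : (k' : ℝ) ≤ K := by exact_mod_cast hk'.1.2
            calc (k' : ℝ) * |μ * (k : ℝ) ^ (n + 1) - μ' * (k' : ℝ) ^ (n + 1)|
                ≤ K * (1 / (2 * A)) := mul_le_mul h7 h1 (abs_nonneg _) hK0.le
              _ = K / (2 * A) := by ring
          exact (add_le_add h2 h4).trans hB01)
      have hq'0 : (0 : ℝ) < q' := by exact_mod_cast hq'1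
      have hq'R : (q' : ℝ) ≤ Q := by exact_mod_cast hq'Q
      have hbd : |μ * (k : ℝ) ^ (n + 1) - (b' : ℝ) / q'| ≤ Y / A := hb'.trans hDQK
      have hYA : Y / A ≤ K / A * X := by
        have h1 : Y / A ≤ X / A := div_le_div_of_nonneg_right hYX hA0.le
        have h2 : X / A = 1 / A * X := by ring
        have h3 : 1 / A * X ≤ K / A * X := mul_le_mul_of_nonneg_right hKA (by positivity)
        linarith
      have hμk : |μ * (k : ℝ) ^ (n + 1)| ≤ K / A * X := by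
        rw [abs_mul, abs_of_nonneg (by positivity : (0 : ℝ) ≤ (k : ℝ) ^ (n + 1))]
        calc |μ| * (k : ℝ) ^ (n + 1) ≤ |μ| * (K : ℝ) ^ (n + 1) :=
              mul_le_mul_of_nonneg_left (pow_le_pow_left₀ (by positivity) hkR _) (abs_nonneg _)
          _ = |μ| * (K : ℝ) ^ n * K := by ring
          _ ≤ X / A * K := mul_le_mul_of_nonneg_right ih1 hK0.le
          _ = K / A * X := by ring
      have hb'0 : b' = 0 := by
        by_contra hne
        have h1 : (1 : ℝ) ≤ |(b' : ℝ)| := by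
          have : (1 : ℤ) ≤ |b'| := Int.one_le_abs hne
          exact_mod_cast this
        have h2 : |(b' : ℝ) / q'| ≤ 2 * (K / A * X) := by
          have h3 : (b' : ℝ) / q' = μ * (k : ℝ) ^ (n + 1) -
              (μ * (k : ℝ) ^ (n + 1) - (b' : ℝ) / q') := by ring
          rw [h3]
          refine (abs_sub _ _).trans ?_
          linarith
        rw [abs_div, abs_of_pos hq'0] at h2
        have h4 : 1 / (Q : ℝ) ≤ |(b' : ℝ)| / q' := by
          rw [div_le_div_iff₀ hQ0 hq'0]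
          calc 1 * (q' : ℝ) ≤ 1 * Q := mul_le_mul_of_nonneg_left hq'R zero_le_one
            _ ≤ |(b' : ℝ)| * Q := mul_le_mul_of_nonneg_right h1 hQ0.le
        have h5 : 2 * (1 / (100 * (Q : ℝ))) < 1 / Q := by
          rw [mul_one_div, div_lt_div_iff₀ (by positivity) hQ0]
          linarith
        linarith
      rw [hb'0] at hbd
      simp only [Int.cast_zero, zero_div, sub_zero] at hbd
      rw [abs_mul, abs_of_nonneg (by positivity : (0 : ℝ) ≤ (k : ℝ) ^ (n + 1))] at hbd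
      have hKk : (K : ℝ) ≤ k * L ^ E2 := by
        refine hKK.trans ?_
        have : (K1 : ℝ) ≤ k := by exact_mod_cast hk.1.le
        exact mul_le_mul_of_nonneg_right this (by positivity)
      calc |μ| * (K : ℝ) ^ (n + 1) ≤ |μ| * (k * L ^ E2) ^ (n + 1) :=
            mul_le_mul_of_nonneg_left (pow_le_pow_left₀ hK0.le hKk _) (abs_nonneg _)
        _ = |μ| * (k : ℝ) ^ (n + 1) * L ^ (E2 * (n + 1)) := by rw [mul_pow, ← pow_mul]; ring
        _ ≤ Y / A * L ^ (E2 * j) := by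
          refine mul_le_mul hbd (pow_le_pow_right₀ hL1 ?_) (by positivity) (by positivity)
          exact Nat.mul_le_mul_left _ (by omega)
        _ = X / A := by
          have h1 : X = Y * L ^ (E2 * j) := by rw [hX, hY, hC, ← pow_add]
          rw [h1]; ring
  obtain ⟨hfin, _⟩ := hclaim (j - 1) (by omega)
  refine ⟨q, hq1, ?_, b, ?_⟩
  · refine hqQR.trans (hQ2.trans ?_)
    rw [hT]
    exact pow_le_pow_right₀ hL1 (by omega)
  · rw [← hμ, le_div_iff₀ (by positivity)]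
    rw [le_div_iff₀ hA0] at hfin
    have h1 : X ≤ L ^ E := by
      rw [hX]; exact pow_le_pow_right₀ hL1 (by omega)
    calc |μ| * ((A : ℝ) * (K : ℝ) ^ (j - 1)) = |μ| * (K : ℝ) ^ (j - 1) * A := by ring
      _ ≤ X := hfin
      _ ≤ L ^ E := h1

end Pool.Agent.H993R2.FB
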