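import Pool.Agent.H993R2.Switch

set_option autoImplicit false
set_option maxHeartbeats 400000
set_option linter.unusedSectionVars false

/-!
Counting.
-/

namespace Pool.Agent.H993R2.Ham

open Finset
open scoped Classical

noncomputable section

variable {V : Type} [Fintype V] [DecidableEq V]

/-- Ordered adjacent pairs in `A × B`. -/
def prs (G : SimpleGraph V) (A B : Finset V) : Finset (V × V) :=
  (A ×ˢ B).filter (fun p => G.Adj p.1 p.2)

theorem mem_prs {G : SimpleGraph V} {A B : Finset V} {p : V × V} :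
    p ∈ prs G A B ↔ p.1 ∈ A ∧ p.2 ∈ B ∧ G.Adj p.1 p.2 := by
  unfold prs
  rw [mem_filter, mem_product]
  tauto

/-- number of neighbours -/
theorem ncard_nbr (G : SimpleGraph V) (u : V) :
    (G.neighborSet u).ncard = (univ.filter (fun v => G.Adj u v)).card := by
  rw [← Set.ncard_coe_finset]
  congr 1
  ext v
  simp

theorem card_prs (G : SimpleGraph V) (A B : Finset V) :
    (prs G A B).card = ∑ u ∈ A, (B.filter (fun v => G.Adj u v)).card := by
  unfold prs
  rw [card_filter, sum_product]
  apply sum_congr rfl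
  intro u _
  rw [card_filter]

theorem card_prs_comm (G : SimpleGraph V) (A B : Finset V) :
    (prs G A B).card = (prs G B A).card := by
  refine card_bij' (fun p _ => (p.2, p.1)) (fun p _ => (p.2, p.1)) ?_ ?_ ?_ ?_
  · intro p hp
    rw [mem_prs] at hp ⊢
    exact ⟨hp.2.1, hp.1, hp.2.2.symm⟩
  · intro p hp
    rw [mem_prs] at hp ⊢
    exact ⟨hp.2.1, hp.1, hp.2.2.symm⟩
  · intro p _; rfl
  · intro p _; rfl

theorem card_prs_le (G : SimpleGraph V) (A B : Finset V) (k : ℕ)
    (hA : ∀ u ∈ A, (G.neighborSet u).ncard = k) : (prs G A B).card ≤ A.card * k := by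
  rw [card_prs, ← smul_eq_mul, ← sum_const]
  apply sum_le_sum
  intro u hu
  rw [← hA u hu, ncard_nbr]
  exact card_le_card (filter_subset_filter _ (subset_univ _))

theorem card_prs_add (G : SimpleGraph V) (A B : Finset V) (k : ℕ)
    (hA : ∀ u ∈ A, (G.neighborSet u).ncard = k) (hAB : ∀ v, v ∈ A ∨ v ∈ B) :
    A.card * k ≤ (prs G A A).card + (prs G A B).card := by
  rw [card_prs, card_prs, ← sum_add_distrib, ← smul_eq_mul, ← sum_const]
  apply sum_le_sum
  intro u hu
  rw [← hA u hu, ncard_nbr]
  refine le_trans (card_le_card ?_) (card_union_le _ _)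
  intro v hv
  rw [mem_filter] at hv
  rw [mem_union, mem_filter, mem_filter]
  rcases hAB v with h | h
  · exact Or.inl ⟨h, hv.2⟩
  · exact Or.inr ⟨h, hv.2⟩

/-- The switchable quadruples. -/
def quads (G : SimpleGraph V) (L H : Finset V) : Finset ((V × V) × (V × V)) :=
  ((prs G L L) ×ˢ (prs G H H)).filter (fun q => ¬ G.Adj q.1.1 q.2.1 ∧ ¬ G.Adj q.1.2 q.2.2)

theorem quads_lower (G : SimpleGraph V) (L H : Finset V) (D : ℕ)
    (hL : ∀ u ∈ L, (G.neighborSet u).ncard = 3) (hH : ∀ u ∈ H, (G.neighborSet u).ncard = D) :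
    (prs G L L).card * (prs G H H).card ≤ (quads G L H).card + (prs G L L).card * (6 * D) := by
  rw [← card_product]
  set P := (prs G L L) ×ˢ (prs G H H) with hP
  -- bad quadruples
  have hbad : ∀ (f : V × V → V) (g : V × V → V) , (∀ p ∈ prs G L L, f p ∈ L) →
      (∀ a : V, a ∈ H → ((prs G H H).filter (fun p => g p = a)).card ≤ D) →
      (∀ p ∈ prs G H H, g p ∈ H) →
      (P.filter (fun q => G.Adj (f q.1) (g q.2))).card ≤ (prs G L L).card * (3 * D) := by
    intro f g hf hg hgH
    rw [card_filter, hP, sum_product, ← smul_eq_mul, ← sum_const]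
    apply sum_le_sum
    intro p hp
    rw [← card_filter]
    have h1 : ((prs G H H).filter (fun q => G.Adj (f p) (g q))) ⊆
        (univ.filter (fun v => G.Adj (f p) v)).biUnion
          (fun a => if a ∈ H then (prs G H H).filter (fun q => g q = a) else ∅) := by
      intro q hq
      rw [mem_filter] at hq
      rw [mem_biUnion]
      refine ⟨g q, by simpa using hq.2, ?_⟩
      rw [if_pos (hgH q hq.1), mem_filter]
      exact ⟨hq.1, rfl⟩
    refine (card_le_card h1).trans ?_
    have h2 : (univ.filter (fun v => G.Adj (f p) v)).card = 3 := by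
      rw [← ncard_nbr]; exact hL _ (hf p hp)
    rw [← h2]
    apply card_biUnion_le_card_mul
    intro a _
    split_ifs with ha
    · exact hg a ha
    · simp
  have hb1 := hbad (fun p => p.1) (fun p => p.1) (fun p hp => (mem_prs.mp hp).1) (by
    intro a ha
    have : ((prs G H H).filter (fun p => p.1 = a)).card ≤
        (univ.filter (fun v => G.Adj a v)).card := by
      apply card_le_card_of_injOn (fun p => p.2)
      · intro p hp
        rw [mem_coe, mem_filter, mem_prs] at hp
        rw [mem_coe, mem_filter]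
        refine ⟨mem_univ _, ?_⟩
        have := hp.1.2.2
        rwa [hp.2] at this
      · intro p hp q hq hpq
        rw [mem_coe, mem_filter] at hp hq
        exact Prod.ext (hp.2.trans hq.2.symm) hpq
    rwa [← ncard_nbr, hH a ha] at this) (fun p hp => (mem_prs.mp hp).1)
  have hb2 := hbad (fun p => p.2) (fun p => p.2) (fun p hp => (mem_prs.mp hp).2.1) (by
    intro a ha
    have : ((prs G H H).filter (fun p => p.2 = a)).card ≤
        (univ.filter (fun v => G.Adj a v)).card := by
      apply card_le_card_of_injOn (fun p => p.1)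
      · intro p hp
        rw [mem_coe, mem_filter, mem_prs] at hp
        rw [mem_coe, mem_filter]
        refine ⟨mem_univ _, ?_⟩
        have := hp.1.2.2
        rw [hp.2] at this
        exact this.symm
      · intro p hp q hq hpq
        rw [mem_coe, mem_filter] at hp hq
        exact Prod.ext hpq (hp.2.trans hq.2.symm)
    rwa [← ncard_nbr, hH a ha] at this) (fun p hp => (mem_prs.mp hp).2.1)
  have hsub : P ⊆ quads G L H ∪ ((P.filter (fun q => G.Adj q.1.1 q.2.1)) ∪
      (P.filter (fun q => G.Adj q.1.2 q.2.2))) := by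
    intro q hq
    unfold quads
    simp only [mem_union, mem_filter]
    rw [← hP]
    tauto
  have h3 := (card_le_card hsub).trans ((card_union_le _ _).trans
    (Nat.add_le_add_left (card_union_le _ _) _))
  calc P.card ≤ _ := h3
    _ ≤ (quads G L H).card + ((prs G L L).card * (3 * D) + (prs G L L).card * (3 * D)) := by
        gcongr
    _ = (quads G L H).card + (prs G L L).card * (6 * D) := by ring

/-- The graphs with a given degree sequence. -/
def grs (d : V → ℕ) : Finset (SimpleGraph V) :=
  univ.filter (fun G => ∀ v, (G.neighborSet v).ncard = d v)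

theorem mem_grs {d : V → ℕ} {G : SimpleGraph V} :
    G ∈ grs d ↔ ∀ v, (G.neighborSet v).ncard = d v := by
  unfold grs
  rw [mem_filter]
  exact ⟨fun h => h.2, fun h => ⟨mem_univ _, h⟩⟩

theorem good_of_mem {G : SimpleGraph V} {L H : Finset V} (hLH : Disjoint L H)
    {q : (V × V) × (V × V)} (hq : q ∈ quads G L H) : Good G q.1.1 q.1.2 q.2.1 q.2.2 := by
  unfold quads at hq
  rw [mem_filter, mem_product, mem_prs, mem_prs] at hq
  obtain ⟨⟨⟨h1, h2, h3⟩, ⟨h4, h5, h6⟩⟩, h7, h8⟩ := hq
  refine ⟨h3, h6, h7, h8, ?_, ?_, ?_, ?_⟩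
  · intro h; rw [h] at h1; exact disjoint_left.mp hLH h1 h4
  · intro h; rw [h] at h1; exact disjoint_left.mp hLH h1 h5
  · intro h; rw [h] at h2; exact disjoint_left.mp hLH h2 h4
  · intro h; rw [h] at h2; exact disjoint_left.mp hLH h2 h5

theorem switch_count (d : V → ℕ) (L H : Finset V) (hLH : Disjoint L H)
    (hL : ∀ u ∈ L, d u = 3) :
    ∑ G ∈ grs d, (quads G L H).card ≤ (grs d).card * ((L.card * 3) * (L.card * 3)) := by
  rw [← card_sigma]
  have h1 : ((grs d).sigma (fun G => quads G L H)).card ≤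
      ((grs d).sigma (fun G => (prs G L H) ×ˢ (prs G L H))).card := by
    apply card_le_card_of_injOn
      (fun z => (⟨sw z.1 z.2.1.1 z.2.1.2 z.2.2.1 z.2.2.2,
        ((z.2.1.1, z.2.2.1), (z.2.1.2, z.2.2.2))⟩ :
          (_ : SimpleGraph V) × ((V × V) × (V × V))))
    · rintro ⟨G, q⟩ hz
      rw [mem_coe, mem_sigma] at hz
      obtain ⟨hG, hq⟩ := hz
      have hgood := good_of_mem hLH hq
      have hG' := (mem_filter.mp hG).2
      rw [mem_coe, mem_sigma]
      refine ⟨?_, ?_⟩
      · refine mem_filter.mpr ⟨mem_univ _, fun v => ?_⟩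
        rw [sw_ncard hgood, hG' v]
      · unfold quads at hq
        dsimp only at hq ⊢
        rw [mem_filter, mem_product, mem_prs, mem_prs] at hq
        have hs := hgood.swap hgood.ne
        rw [mem_product, mem_prs, mem_prs]
        exact ⟨⟨hq.1.1.1, hq.1.2.1, hs.huv⟩, ⟨hq.1.1.2.1, hq.1.2.2.1, hs.hxy⟩⟩
    · rintro ⟨G, ⟨⟨u, v⟩, ⟨x, y⟩⟩⟩ hz ⟨G', ⟨⟨u', v'⟩, ⟨x', y'⟩⟩⟩ hz' heq
      rw [mem_coe, mem_sigma] at hz hz'
      have g1 := good_of_mem hLH hz.2
      have g2 := good_of_mem hLH hz'.2
      dsimp only at g1 g2 heq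
      rw [Sigma.mk.injEq] at heq
      obtain ⟨e1, e2⟩ := heq
      have e3 := eq_of_heq e2
      simp only [Prod.mk.injEq] at e3
      obtain ⟨⟨rfl, rfl⟩, ⟨rfl, rfl⟩⟩ := e3
      have e4 := sw_sw g1
      rw [e1, sw_sw g2] at e4
      rw [e4]
  refine h1.trans ?_
  rw [card_sigma, ← smul_eq_mul, ← sum_const]
  apply sum_le_sum
  intro G hG
  have hG' := (mem_filter.mp hG).2
  rw [card_product]
  have h2 : (prs G L H).card ≤ L.card * 3 := card_prs_le G L H 3
    (fun u hu => by rw [hG' u, hL u hu])
  gcongr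

/-- A Hamiltonian graph has many adjacent ordered pairs in `L`. -/
theorem ham_pairs {G : SimpleGraph V} (hG : G.IsHamiltonian) (hc : Fintype.card V ≠ 1)
    (L H : Finset V) (hLH : ∀ v, v ∈ L ∨ v ∈ H) :
    L.card ≤ H.card + (prs G L L).card := by
  have h1 : (L.filter (fun u => ∀ v ∈ L, ¬ G.Adj u v)).card ≤ H.card := by
    apply card_le_of_ham hG hc
    intro u hu v huv
    rw [mem_filter] at hu
    rcases hLH v with h | h
    · exact absurd huv (hu.2 v h)
    · exact h
  have h2 : (L.filter (fun u => ¬ ∀ v ∈ L, ¬ G.Adj u v)).card ≤ (prs G L L).card := by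
    refine le_trans (card_le_card (t := (prs G L L).image Prod.fst) ?_) card_image_le
    intro u hu
    rw [mem_filter] at hu
    obtain ⟨hu, h⟩ := hu
    push Not at h
    obtain ⟨v, hv, huv⟩ := h
    rw [mem_image]
    exact ⟨(u, v), mem_prs.mpr ⟨hu, hv, huv⟩, rfl⟩
  have h3 := card_filter_add_card_filter_not (s := L) (fun u => ∀ v ∈ L, ¬ G.Adj u v)
  omega

theorem main_count (d : V → ℕ) (L H : Finset V) (D : ℕ) (hc : Fintype.card V ≠ 1)
    (hLH : Disjoint L H) (hcov : ∀ v, v ∈ L ∨ v ∈ H)
    (hL : ∀ u ∈ L, d u = 3) (hH : ∀ u ∈ H, d u = D) (M K : ℕ)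
    (hM : M + H.card ≤ L.card) (hK : K + 6 * D + L.card * 3 ≤ H.card * D) :
    ((grs d).filter (fun G => G.IsHamiltonian)).card * (M * K) ≤
      (grs d).card * ((L.card * 3) * (L.card * 3)) := by
  refine le_trans ?_ (switch_count d L H hLH hL)
  calc ((grs d).filter (fun G => G.IsHamiltonian)).card * (M * K)
      = ∑ G ∈ (grs d).filter (fun G => G.IsHamiltonian), M * K := by
        rw [sum_const, smul_eq_mul]
    _ ≤ ∑ G ∈ (grs d).filter (fun G => G.IsHamiltonian), (quads G L H).card := by
        apply sum_le_sum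
        intro G hG
        rw [mem_filter] at hG
        obtain ⟨hG1, hG2⟩ := hG
        have hG' := (mem_filter.mp hG1).2
        have h1 := ham_pairs hG2 hc L H hcov
        have h2 := card_prs_add G H L D (fun u hu => by rw [hG' u, hH u hu])
          (fun v => (hcov v).symm)
        have h3 : (prs G H L).card ≤ L.card * 3 := by
          rw [card_prs_comm]
          exact card_prs_le G L H 3 (fun u hu => by rw [hG' u, hL u hu])
        have h4 := quads_lower G L H D (fun u hu => by rw [hG' u, hL u hu])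
          (fun u hu => by rw [hG' u, hH u hu])
        have h5 : K + 6 * D ≤ (prs G H H).card := by omega
        have h6 : M ≤ (prs G L L).card := by omega
        have h7 : (prs G L L).card * (K + 6 * D) ≤ (prs G L L).card * (prs G H H).card :=
          Nat.mul_le_mul_left _ h5
        have h8 : (prs G L L).card * K ≤ (quads G L H).card := by
          rw [mul_add] at h7
          omega
        exact (Nat.mul_le_mul_right K h6).trans h8
    _ ≤ ∑ G ∈ grs d, (quads G L H).card :=
        sum_le_sum_of_subset (filter_subset _ _)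

end

end Pool.Agent.H993R2.Ham
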