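import Mathlib

set_option autoImplicit false

/-!
Random graphs with bounded degree sequences need not be Hamiltonian: a switching argument.
-/

namespace Pool.Agent.H993R2.Ham

open Finset

variable {V : Type*} [Fintype V] [DecidableEq V]

/-- In a Hamiltonian graph a set all of whose neighbours lie in `H` has at most `#H` elements. -/
theorem card_le_of_ham {G : SimpleGraph V} (hG : G.IsHamiltonian) (hc : Fintype.card V ≠ 1)
    (I H : Finset V) (hI : ∀ u ∈ I, ∀ v, G.Adj u v → v ∈ H) : I.card ≤ H.card := by
  obtain ⟨a, p, hp⟩ := hG hc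
  have hlen : 3 ≤ p.length := hp.isCycle.three_le_length
  -- every vertex is `p.getVert i` with `1 ≤ i ≤ p.length`
  have hsurj : ∀ u : V, ∃ i, 1 ≤ i ∧ i ≤ p.length ∧ p.getVert i = u := by
    intro u
    obtain ⟨i, hi, hil⟩ := SimpleGraph.Walk.mem_support_iff_exists_getVert.mp (hp.mem_support u)
    rcases Nat.eq_zero_or_pos i with h0 | h0
    · subst h0
      refine ⟨p.length, by omega, le_rfl, ?_⟩
      rw [SimpleGraph.Walk.getVert_length]
      rw [SimpleGraph.Walk.getVert_zero] at hi
      exact hi
    · exact ⟨i, h0, hil, hi⟩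
  choose f hf1 hf2 hf3 using hsurj
  apply Finset.card_le_card_of_injOn (fun u => p.getVert (f u - 1))
  · intro u hu
    have hadj : G.Adj (p.getVert (f u - 1)) (p.getVert (f u - 1 + 1)) :=
      p.adj_getVert_succ (by have := hf1 u; have := hf2 u; omega)
    have h1 : f u - 1 + 1 = f u := by have := hf1 u; omega
    rw [h1, hf3] at hadj
    exact hI u hu _ hadj.symm
  · intro u _ v _ huv
    have h2 : f u - 1 = f v - 1 := by
      apply hp.isCycle.getVert_injOn' _ _ huv
      · show f u - 1 ≤ p.length - 1
        have := hf2 u; omega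
      · show f v - 1 ≤ p.length - 1
        have := hf2 v; omega
    have h3 : f u = f v := by have := hf1 u; have := hf1 v; omega
    rw [← hf3 u, ← hf3 v, h3]

end Pool.Agent.H993R2.Ham
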