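import Pool.Agent.H993R2.Ham

set_option autoImplicit false
set_option maxHeartbeats 400000

/-!
The switching argument.
-/

namespace Pool.Agent.H993R2.Ham

open Finset

open scoped Classical in
/-- Remove the edges `uv`, `xy` and add the edges `ux`, `vy`. -/
def sw {V : Type*} (G : SimpleGraph V) (u v x y : V) : SimpleGraph V :=
  SimpleGraph.fromEdgeSet ((G.edgeSet \ {s(u, v), s(x, y)}) ∪ {s(u, x), s(v, y)})

section

variable {V : Type*} {G : SimpleGraph V} {u v x y : V}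

theorem sw_adj (a b : V) :
    (sw G u v x y).Adj a b ↔ ((G.Adj a b ∧ s(a, b) ≠ s(u, v) ∧ s(a, b) ≠ s(x, y)) ∨
      s(a, b) = s(u, x) ∨ s(a, b) = s(v, y)) ∧ a ≠ b := by
  unfold sw
  rw [SimpleGraph.fromEdgeSet_adj]
  simp only [Set.mem_union, Set.mem_sdiff, SimpleGraph.mem_edgeSet, Set.mem_insert_iff,
    Set.mem_singleton_iff, not_or]

/-- The conditions under which we switch. -/
structure Good (G : SimpleGraph V) (u v x y : V) : Prop where
  huv : G.Adj u v
  hxy : G.Adj x y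
  hux : ¬ G.Adj u x
  hvy : ¬ G.Adj v y
  n1 : u ≠ x
  n2 : u ≠ y
  n3 : v ≠ x
  n4 : v ≠ y

theorem sw_edgeSet (h : Good G u v x y) :
    (sw G u v x y).edgeSet = (G.edgeSet \ {s(u, v), s(x, y)}) ∪ {s(u, x), s(v, y)} := by
  obtain ⟨huv, hxy, hux, hvy, n1, n2, n3, n4⟩ := h
  unfold sw
  rw [SimpleGraph.edgeSet_fromEdgeSet]
  ext e
  simp only [Set.mem_sdiff]
  constructor
  · exact fun h => h.1
  · intro h
    refine ⟨h, ?_⟩
    intro hd
    rcases h with h | h
    · exact G.not_isDiag_of_mem_edgeSet h.1 hd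
    · rcases h with rfl | rfl
      · exact n1 (by simpa using hd)
      · exact n4 (by simpa using hd)

theorem Good.swap (h : Good G u v x y) (hxv : s(u, x) ≠ s(x, y) ∧ s(u, x) ≠ s(u, v) ∧
    s(v, y) ≠ s(x, y) ∧ s(v, y) ≠ s(u, v)) : Good (sw G u v x y) u x v y := by
  obtain ⟨h1, h2, h3, h4⟩ := hxv
  refine ⟨?_, ?_, ?_, ?_, h.huv.ne, h.n2, h.n3.symm, h.hxy.ne⟩
  · rw [← SimpleGraph.mem_edgeSet, sw_edgeSet h]; right; left; rfl
  · rw [← SimpleGraph.mem_edgeSet, sw_edgeSet h]; right; right; rfl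
  · rw [← SimpleGraph.mem_edgeSet, sw_edgeSet h]
    rintro (k | k)
    · exact k.2 (Or.inl rfl)
    · rcases k with k | k
      · exact h2 k.symm
      · exact h4 (Set.mem_singleton_iff.mp k).symm
  · rw [← SimpleGraph.mem_edgeSet, sw_edgeSet h]
    rintro (k | k)
    · exact k.2 (Or.inr rfl)
    · rcases k with k | k
      · exact h1 k.symm
      · exact h3 (Set.mem_singleton_iff.mp k).symm

theorem Good.ne (h : Good G u v x y) : s(u, x) ≠ s(x, y) ∧ s(u, x) ≠ s(u, v) ∧
    s(v, y) ≠ s(x, y) ∧ s(v, y) ≠ s(u, v) := by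
  refine ⟨?_, ?_, ?_, ?_⟩
  · intro k; apply h.hux; rw [← SimpleGraph.mem_edgeSet, k]; exact h.hxy
  · intro k; apply h.hux; rw [← SimpleGraph.mem_edgeSet, k]; exact h.huv
  · intro k; apply h.hvy; rw [← SimpleGraph.mem_edgeSet, k]; exact h.hxy
  · intro k; apply h.hvy; rw [← SimpleGraph.mem_edgeSet, k]; exact h.huv

theorem sw_sw (h : Good G u v x y) : sw (sw G u v x y) u x v y = G := by
  rw [← SimpleGraph.edgeSet_inj, sw_edgeSet (h.swap h.ne), sw_edgeSet h]
  obtain ⟨h1, h2, h3, h4⟩ := h.ne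
  have k1 : s(u, x) ∉ G.edgeSet := h.hux
  have k2 : s(v, y) ∉ G.edgeSet := h.hvy
  have k3 : s(u, v) ∈ G.edgeSet := h.huv
  have k4 : s(x, y) ∈ G.edgeSet := h.hxy
  ext e
  constructor
  · rintro (⟨(k | k), k'⟩ | k)
    · exact k.1
    · exact absurd k k'
    · rcases k with rfl | k
      · exact k3
      · rw [Set.mem_singleton_iff.mp k]; exact k4
  · intro he
    by_cases e1 : e ∈ ({s(u, v), s(x, y)} : Set (Sym2 V))
    · exact Or.inr e1
    · refine Or.inl ⟨Or.inl ⟨he, e1⟩, ?_⟩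
      rintro (rfl | k)
      · exact k1 he
      · rw [Set.mem_singleton_iff.mp k] at he; exact k2 he

theorem sw_nbr_u (h : Good G u v x y) :
    (sw G u v x y).neighborSet u = insert x (G.neighborSet u \ {v}) := by
  obtain ⟨huv, hxy, hux, hvy, n1, n2, n3, n4⟩ := h
  have e1 : u ≠ v := huv.ne
  have e2 : x ≠ y := hxy.ne
  ext b
  simp only [SimpleGraph.mem_neighborSet, sw_adj, Sym2.eq_iff, ne_eq, Set.mem_insert_iff,
    Set.mem_sdiff, Set.mem_singleton_iff]
  constructor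
  · rintro ⟨h1, h2⟩
    tauto
  · rintro (rfl | ⟨h1, h2⟩)
    · tauto
    · have := h1.ne
      tauto

theorem sw_comm1 : sw G u v x y = sw G v u y x := by
  ext a b
  simp only [sw_adj, Sym2.eq_iff, ne_eq]
  tauto

theorem sw_comm2 : sw G u v x y = sw G x y u v := by
  ext a b
  simp only [sw_adj, Sym2.eq_iff, ne_eq]
  tauto

theorem Good.comm1 (h : Good G u v x y) : Good G v u y x :=
  ⟨h.huv.symm, h.hxy.symm, h.hvy, h.hux, h.n4, h.n3, h.n2, h.n1⟩

theorem Good.comm2 (h : Good G u v x y) : Good G x y u v :=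
  ⟨h.hxy, h.huv, fun k => h.hux k.symm, fun k => h.hvy k.symm, h.n1.symm, h.n3.symm,
    h.n2.symm, h.n4.symm⟩

theorem sw_nbr_other (w : V) (hu : w ≠ u) (hv : w ≠ v) (hx : w ≠ x)
    (hy : w ≠ y) : (sw G u v x y).neighborSet w = G.neighborSet w := by
  ext b
  simp only [SimpleGraph.mem_neighborSet, sw_adj, Sym2.eq_iff, ne_eq]
  constructor
  · rintro ⟨h1, h2⟩
    tauto
  · intro h1
    have := h1.ne
    tauto

theorem sw_ncard_u (h : Good G u v x y) :
    ((sw G u v x y).neighborSet u).ncard = (G.neighborSet u).ncard := by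
  rw [sw_nbr_u h]
  apply Set.ncard_exchange
  · exact h.hux
  · exact h.huv

theorem sw_ncard (h : Good G u v x y) (w : V) :
    ((sw G u v x y).neighborSet w).ncard = (G.neighborSet w).ncard := by
  by_cases hu : w = u
  · subst hu; exact sw_ncard_u h
  by_cases hv : w = v
  · subst hv
    rw [sw_comm1]
    exact sw_ncard_u h.comm1
  by_cases hx : w = x
  · subst hx
    rw [sw_comm2]
    exact sw_ncard_u h.comm2
  by_cases hy : w = y
  · subst hy
    rw [sw_comm1, sw_comm2]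
    exact sw_ncard_u h.comm1.comm2
  rw [sw_nbr_other w hu hv hx hy]

end

end Pool.Agent.H993R2.Ham
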